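import Mathlib

set_option autoImplicit false

namespace Pool.Agent.H314R3

/-- The independent domination number `i(G)`: the smallest cardinality of a maximal (with respect
to inclusion) independent set of `G`. -/
noncomputable def indDom {V : Type} (G : SimpleGraph V) : ℕ :=
  sInf {k : ℕ | ∃ S : Finset V,
    Maximal (fun T : Finset V => G.IsIndepSet (T : Set V)) S ∧ S.card = k}

/-- `μ(G)`: the smallest cardinality of a maximal (with respect to inclusion) clique of `G`. -/
noncomputable def minMaxClique {V : Type} (G : SimpleGraph V) : ℕ :=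
  sInf {k : ℕ | ∃ S : Finset V,
    Maximal (fun T : Finset V => G.IsClique (T : Set V)) S ∧ S.card = k}

theorem indDom_compl {V : Type} (G : SimpleGraph V) : indDom Gᶜ = minMaxClique G := by
  unfold indDom minMaxClique
  simp only [SimpleGraph.isIndepSet_compl]

theorem indDom_set_nonempty {V : Type} [Finite V] (G : SimpleGraph V) :
    {k : ℕ | ∃ S : Finset V,
      Maximal (fun T : Finset V => G.IsIndepSet (T : Set V)) S ∧ S.card = k}.Nonempty := by
  classical
  have h0 : (fun T : Finset V => G.IsIndepSet (T : Set V)) (∅ : Finset V) := by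
    simp [SimpleGraph.IsIndepSet]
  obtain ⟨S, _, hS⟩ := Finite.exists_le_maximal (p := fun T : Finset V => G.IsIndepSet (T : Set V))
    (a := (∅ : Finset V)) h0
  exact ⟨S.card, S, hS, rfl⟩

theorem indDom_le_card {V : Type} [Fintype V] (G : SimpleGraph V) :
    indDom G ≤ Fintype.card V := by
  classical
  obtain ⟨k, S, hS, hk⟩ := indDom_set_nonempty G
  have h1 : indDom G ≤ k := Nat.sInf_le ⟨S, hS, hk⟩
  have h2 : S.card ≤ Fintype.card V := Finset.card_le_univ S
  omega

theorem le_indDom {V : Type} [Finite V] (G : SimpleGraph V) (c : ℕ)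
    (h : ∀ S : Finset V, Maximal (fun T : Finset V => G.IsIndepSet (T : Set V)) S → c ≤ S.card) :
    c ≤ indDom G := by
  obtain ⟨S, hS, hk⟩ := Nat.sInf_mem (indDom_set_nonempty G)
  have := h S hS
  unfold indDom
  omega

theorem le_minMaxClique {V : Type} [Finite V] (G : SimpleGraph V) (c : ℕ)
    (h : ∀ S : Finset V, Maximal (fun T : Finset V => G.IsClique (T : Set V)) S → c ≤ S.card) :
    c ≤ minMaxClique G := by
  rw [← indDom_compl]
  apply le_indDom
  simpa only [SimpleGraph.isIndepSet_compl] using h

/-- The relation between the first `a` vertices and the other `b` vertices. -/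
def R (a b m : ℕ) (u v : ℕ) : Prop := ∃ j < m, (u * m + j) % b + a = v

/-- The split graph: the vertices `< a` are independent, the others form a clique. -/
def splitGraph (a b m n : ℕ) : SimpleGraph (Fin n) where
  Adj u v := u ≠ v ∧ ((a ≤ u.val ∧ a ≤ v.val) ∨ (u.val < a ∧ a ≤ v.val ∧ R a b m u.val v.val) ∨
    (v.val < a ∧ a ≤ u.val ∧ R a b m v.val u.val))
  symm := ⟨by
    rintro u v ⟨h1, h2⟩
    refine ⟨h1.symm, ?_⟩
    rcases h2 with h | h | h
    · exact Or.inl ⟨h.2, h.1⟩
    · exact Or.inr (Or.inr h)
    · exact Or.inr (Or.inl h)⟩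
  loopless := ⟨fun u h => h.1 rfl⟩

theorem card_right (a b m n u : ℕ) (hb : a + b = n) (hm : m ≤ b) (hb0 : 0 < b) :
    ∃ T : Finset (Fin n), T.card = m ∧ ∀ v ∈ T, a ≤ v.val ∧ R a b m u v.val := by
  classical
  have hlt : ∀ j : ℕ, (u * m + j) % b + a < n := by
    intro j
    have := Nat.mod_lt (u * m + j) hb0
    omega
  let f : ℕ → Fin n := fun j => ⟨(u * m + j) % b + a, hlt j⟩
  refine ⟨(Finset.range m).image f, ?_, ?_⟩
  · rw [Finset.card_image_of_injOn, Finset.card_range]
    intro i hi j hj hij
    simp only [Finset.coe_range, Set.mem_Iio] at hi hj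
    have h1 : (u * m + i) % b = (u * m + j) % b := by
      have := congrArg Fin.val hij
      simp only [f] at this
      omega
    have h2 : i % b = j % b := (Nat.ModEq.add_left_cancel' (u * m) h1)
    rw [Nat.mod_eq_of_lt (by omega), Nat.mod_eq_of_lt (by omega)] at h2
    exact h2
  · intro v hv
    simp only [Finset.mem_image, Finset.mem_range] at hv
    obtain ⟨j, hj, rfl⟩ := hv
    exact ⟨by simp [f], ⟨j, hj, rfl⟩⟩

theorem card_left (a b m t n : ℕ) (v : ℕ) (hb0 : 0 < b) (hcond : a * m ≤ t * b)
    (T : Finset (Fin n)) (hT : ∀ u ∈ T, u.val < a ∧ R a b m u.val v) : T.card ≤ t := by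
  classical
  have h1 : T.card = (T.image Fin.val).card := by
    rw [Finset.card_image_of_injective _ Fin.val_injective]
  have h2 : T.image Fin.val ⊆ (Finset.range t).image (fun q => (b * q + (v - a)) / m) := by
    intro x hx
    simp only [Finset.mem_image] at hx
    obtain ⟨u, hu, rfl⟩ := hx
    obtain ⟨hua, j, hj, hjv⟩ := hT u hu
    simp only [Finset.mem_image, Finset.mem_range]
    refine ⟨(u.val * m + j) / b, ?_, ?_⟩
    · rw [Nat.div_lt_iff_lt_mul hb0]
      have : (u.val + 1) * m ≤ a * m := Nat.mul_le_mul_right m hua
      nlinarith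
    · have h3 : v - a = (u.val * m + j) % b := by omega
      rw [h3, Nat.div_add_mod]
      rw [Nat.div_eq_of_lt_le]
      · nlinarith
      · nlinarith
  rw [h1]
  refine (Finset.card_le_card h2).trans (Finset.card_image_le.trans ?_)
  simp

theorem split_clique (a b m n : ℕ) (hn : a + b = n) (hm : m < b) :
    m + 1 ≤ minMaxClique (splitGraph a b m n) := by
  classical
  apply le_minMaxClique
  intro S hS
  by_cases hex : ∃ u ∈ S, u.val < a
  · obtain ⟨u, huS, hua⟩ := hex
    obtain ⟨T, hTc, hT⟩ := card_right a b m n u.val hn hm.le (by omega)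
    have huT : u ∉ T := fun h => by have := (hT u h).1; omega
    set N : Finset (Fin n) := Finset.univ.filter (fun v => a ≤ v.val ∧ R a b m u.val v.val) with hN
    have hTN : T ⊆ N := fun v hv => by simp only [hN, Finset.mem_filter, Finset.mem_univ, true_and]; exact hT v hv
    have huN : u ∉ N := fun h => by
      simp only [hN, Finset.mem_filter, Finset.mem_univ, true_and] at h; omega
    have hclq : (splitGraph a b m n).IsClique ((insert u N : Finset (Fin n)) : Set (Fin n)) := by
      intro x hx y hy hxy
      simp only [Finset.coe_insert, Set.mem_insert_iff, Finset.mem_coe, hN, Finset.mem_filter,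
        Finset.mem_univ, true_and] at hx hy
      refine ⟨hxy, ?_⟩
      rcases hx with rfl | hx <;> rcases hy with rfl | hy
      · exact absurd rfl hxy
      · exact Or.inr (Or.inl ⟨hua, hy⟩)
      · exact Or.inr (Or.inr ⟨hua, hx⟩)
      · exact Or.inl ⟨hx.1, hy.1⟩
    have hSsub : S ≤ insert u N := by
      intro x hx
      by_cases hxu : x = u
      · simp [hxu]
      · have hadj := hS.prop hx huS hxu
        obtain ⟨_, h | h | h⟩ := hadj
        · omega
        · omega
        · simp only [Finset.mem_insert, hN, Finset.mem_filter, Finset.mem_univ, true_and]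
          exact Or.inr h.2
    have := hS.le_of_ge hclq hSsub
    have hcard := Finset.card_le_card this
    rw [Finset.card_insert_of_notMem huN] at hcard
    have := Finset.card_le_card hTN
    omega
  · push Not at hex
    set B : Finset (Fin n) := Finset.univ.filter (fun v => a ≤ v.val) with hB
    have hclq : (splitGraph a b m n).IsClique (B : Set (Fin n)) := by
      intro x hx y hy hxy
      simp only [hB, Finset.coe_filter, Finset.mem_univ, true_and, Set.mem_ofPred_eq] at hx hy
      exact ⟨hxy, Or.inl ⟨hx, hy⟩⟩
    have hSB : S ≤ B := by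
      intro x hx
      simp only [hB, Finset.mem_filter, Finset.mem_univ, true_and]
      exact hex x hx
    have := Finset.card_le_card (hS.le_of_ge hclq hSB)
    obtain ⟨T, hTc, hT⟩ := card_right a b b n 0 hn le_rfl (by omega)
    have hTB : T ⊆ B := fun v hv => by
      simp only [hB, Finset.mem_filter, Finset.mem_univ, true_and]; exact (hT v hv).1
    have := Finset.card_le_card hTB
    omega

theorem split_indep (a b m t l n : ℕ) (hn : a + b = n) (ha : l + t ≤ a) (ht : 0 < t)
    (hb0 : 0 < b) (hcond : a * m ≤ t * b) :
    l + 1 ≤ indDom (splitGraph a b m n) := by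
  classical
  apply le_indDom
  intro S hS
  set A : Finset (Fin n) := Finset.univ.filter (fun v => v.val < a) with hA
  have hAcard : A.card = a := by
    have : A.image Fin.val = Finset.range a := by
      ext x
      simp only [hA, Finset.mem_image, Finset.mem_filter, Finset.mem_univ, true_and,
        Finset.mem_range]
      constructor
      · rintro ⟨v, hv, rfl⟩; exact hv
      · intro hx; exact ⟨⟨x, by omega⟩, hx, rfl⟩
    rw [← Finset.card_image_of_injective A Fin.val_injective, this, Finset.card_range]
  by_cases hex : ∃ v ∈ S, a ≤ v.val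
  · obtain ⟨v, hvS, hva⟩ := hex
    set N : Finset (Fin n) := Finset.univ.filter (fun u => u.val < a ∧ R a b m u.val v.val) with hN
    have hNt : N.card ≤ t := by
      apply card_left a b m t n v.val hb0 hcond
      intro u hu
      simpa [hN] using hu
    have hNA : N ⊆ A := by
      intro u hu
      simp only [hN, hA, Finset.mem_filter, Finset.mem_univ, true_and] at hu ⊢
      exact hu.1
    have hvA : v ∉ A \ N := by
      simp only [hA, Finset.mem_sdiff, Finset.mem_filter, Finset.mem_univ, true_and]
      omega
    have hind : (splitGraph a b m n).IsIndepSet ((insert v (A \ N) : Finset (Fin n)) : Set (Fin n)) := by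
      intro x hx y hy hxy hadj
      simp only [Finset.coe_insert, Set.mem_insert_iff, Finset.mem_coe, hN, hA, Finset.mem_filter,
        Finset.mem_univ, true_and, Finset.mem_sdiff, not_and] at hx hy
      obtain ⟨_, hadj⟩ := hadj
      rcases hx with rfl | hx <;> rcases hy with rfl | hy
      · exact absurd rfl hxy
      · rcases hadj with h | h | h
        · omega
        · omega
        · exact hy.2 h.1 h.2.2
      · rcases hadj with h | h | h
        · omega
        · exact hx.2 h.1 h.2.2
        · omega
      · rcases hadj with h | h | h <;> omega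
    have hSsub : S ≤ insert v (A \ N) := by
      intro x hx
      by_cases hxv : x = v
      · simp [hxv]
      · have hnadj : ¬ (splitGraph a b m n).Adj x v := hS.prop hx hvS hxv
        simp only [Finset.mem_insert, hN, hA, Finset.mem_filter,
          Finset.mem_univ, true_and, Finset.mem_sdiff, not_and]
        right
        have hxa : x.val < a := by
          by_contra h
          exact hnadj ⟨hxv, Or.inl ⟨by omega, hva⟩⟩
        exact ⟨hxa, fun _ hr => hnadj ⟨hxv, Or.inr (Or.inl ⟨hxa, hva, hr⟩)⟩⟩
    have hcard := Finset.card_le_card (hS.le_of_ge hind hSsub)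
    rw [Finset.card_insert_of_notMem hvA, Finset.card_sdiff_of_subset hNA] at hcard
    omega
  · push Not at hex
    have hind : (splitGraph a b m n).IsIndepSet (A : Set (Fin n)) := by
      intro x hx y hy hxy hadj
      simp only [hA, Finset.coe_filter, Finset.mem_univ, true_and, Set.mem_ofPred_eq] at hx hy
      obtain ⟨_, h | h | h⟩ := hadj <;> omega
    have hSA : S ≤ A := by
      intro x hx
      simp only [hA, Finset.mem_filter, Finset.mem_univ, true_and]
      exact hex x hx
    have := Finset.card_le_card (hS.le_of_ge hind hSA)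
    omega

/-- Whenever `n ≥ l + m + t + s` with `l m ≤ t s`, some graph of order `n` has
`i(G) > l` and `μ(G) > m`. -/
theorem exists_split (l m t s n : ℕ) (hl : 0 < l) (hm : 0 < m) (ht : 0 < t) (hs : l * m ≤ t * s)
    (hn : l + m + t + s ≤ n) :
    ∃ G : SimpleGraph (Fin n), l < indDom G ∧ m < minMaxClique G := by
  have hs0 : 0 < s := by
    rcases Nat.eq_zero_or_pos s with rfl | h
    · have := Nat.mul_pos hl hm; omega
    · exact h
  have hb : (l + t) + (n - (l + t)) = n := by omega
  refine ⟨splitGraph (l + t) (n - (l + t)) m n, ?_, ?_⟩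
  · apply split_indep (l + t) (n - (l + t)) m t l n hb le_rfl ht (by omega)
    have h1 : m + s ≤ n - (l + t) := by omega
    have h2 : t * (m + s) ≤ t * (n - (l + t)) := Nat.mul_le_mul_left t h1
    nlinarith
  · apply split_clique (l + t) (n - (l + t)) m n hb
    omega

end Pool.Agent.H314R3
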